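import Pool.Agent.Results.MP_1ca5ad_gt.Independence
import Pool.Agent.Helper9CC.Proj
import Pool.Agent.W910.FC.Collapse

/-!
# MP_1ca5ad_gt, Q1: the statement of the question is not a theorem of ZFC

Martin's axiom for `ℵ₁` dense sets can be forced; it implies `ω₁ < 𝔭`, and then `C_p(X)` for the
discrete space `X` of size `ℵ₁` is `F`-separable and not Frechet-Urysohn. (The Borel conjecture
implies the statement of the question.)
-/

set_option autoImplicit false

open Cardinal Set

namespace Pool.Agent.Results.MP_1ca5ad_gt.NotATheorem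

open Pool.Agent.R634.FSep Pool.Agent.W684

universe u

theorem omegaOneLtP_of_ma (hMA : MartinAxiomAleph1) : OmegaOneLtP := by
  classical
  intro F hF hfin
  obtain ⟨C, hC1, hC2⟩ := Pool.Agent.W866.SS.solovay (N := ℕ) (ιA := F) (ιB := Unit) hMA hF
    ((mk_le_aleph0 (α := Unit)).trans (aleph0_le_aleph 1))
    (fun b => (b.1)ᶜ) (fun _ => univ) (by
      intro _ G
      have h1 := hfin (G.image Subtype.val) (by
        intro x hx
        obtain ⟨y, _, rfl⟩ := Finset.mem_image.1 (Finset.mem_coe.1 hx)
        exact y.2)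
      refine h1.mono ?_
      intro n hn
      refine ⟨mem_univ _, ?_⟩
      simp only [mem_iUnion, mem_compl_iff, not_exists, not_not]
      intro b hb
      exact hn b.1 (Finset.mem_coe.2 (Finset.mem_image_of_mem _ hb)))
  refine ⟨C, ?_, fun B hB => ?_⟩
  · have := hC2 ()
    rwa [inter_univ] at this
  · refine (hC1 ⟨B, hB⟩).subset ?_
    rintro n ⟨h1, h2⟩
    exact ⟨h1, h2⟩

/-- (1) Some forcing notion forces, below every condition, that `ω₁` is preserved, that Martin's
axiom for `ℵ₁` dense sets holds and that the continuum is at most `ℵ₂`. (2) The plain form of this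
forced sentence implies `ω₁ < 𝔭`. (3) `ω₁ < 𝔭` implies the negation of the statement of the
question. (4) The Borel conjecture implies the statement of the question. -/
theorem result :
    (∃ (P : Type) (_ : Preorder P), Nonempty P ∧ ∀ p : P,
      p ∈ Pool.Agent.W684.FM.OmegaOnePreserved P ∧
      p ∈ Pool.Agent.W684.FM.MartinHolds P Pool.Agent.W684.FM.Om1 ∧
      p ∈ Pool.Agent.Helper669.Forcing.ContinuumLe P (ℵ_ 2 : Cardinal.{0}).out) ∧
    (Pool.Agent.W684.FM.MartinFor Pool.Agent.W684.FM.Om1 → OmegaOneLtP) ∧
    (OmegaOneLtP → ¬ Question.{u}) ∧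
    (BorelConjecture → Question.{u}) :=
  ⟨Pool.Agent.W910.FC.exists_forcing,
    fun h => omegaOneLtP_of_ma (Pool.Agent.W684.FM.martinFor_om1_iff.1 h),
    not_question_of_p, question_of_BC⟩

end Pool.Agent.Results.MP_1ca5ad_gt.NotATheorem
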